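import Mathlib

/-! Graphs without `K_{s,t}`: the set of vertices where two immersions differ. -/

set_option autoImplicit false

open Finset

namespace Pool.Agent.Q266.KM

variable {V W : Type*} {G : SimpleGraph V} {H : SimpleGraph W} {f h : V → W}

/-- A homomorphism which is injective on the neighbourhood of each vertex. -/
structure Imm (G : SimpleGraph V) (H : SimpleGraph W) (f : V → W) : Prop where
  hom : ∀ u v, G.Adj u v → H.Adj (f u) (f v)
  inj : ∀ v u u', G.Adj v u → G.Adj v u' → f u = f u' → u = u'

/-- at most `t - 1` vertices are adjacent to all vertices of a set with at least `s` vertices -/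
theorem common {s t : ℕ} (hfree : (completeBipartiteGraph (Fin s) (Fin t)).Free G)
    (A T : Finset V) (hA : s ≤ A.card) (h : ∀ a ∈ A, ∀ b ∈ T, G.Adj a b) : T.card ≤ t - 1 := by
  by_contra hlt
  push Not at hlt
  obtain ⟨A', hA', hA''⟩ := exists_subset_card_eq hA
  obtain ⟨T', hT', hT''⟩ := exists_subset_card_eq (show t ≤ T.card by omega)
  apply hfree
  rw [SimpleGraph.completeBipartiteGraph_isContained_iff]
  refine ⟨A', T', by simpa using hA'', by simpa using hT'', ?_⟩
  intro a ha b hb
  exact h a (hA' (mem_coe.1 ha)) b (hT' (mem_coe.1 hb))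

/-- immersions pull back the absence of `K_{s,t}` -/
theorem Imm.free {s t : ℕ} (hs : 1 ≤ s) (ht : 1 ≤ t) (hf : Imm G H f)
    (hfree : (completeBipartiteGraph (Fin s) (Fin t)).Free H) :
    (completeBipartiteGraph (Fin s) (Fin t)).Free G := by
  classical
  intro hcon
  rw [SimpleGraph.completeBipartiteGraph_isContained_iff] at hcon
  obtain ⟨A, B, hA, hB, hAB⟩ := hcon
  rw [Fintype.card_fin] at hA hB
  obtain ⟨a, ha⟩ := card_pos.1 (show 0 < A.card by omega)
  obtain ⟨b, hb⟩ := card_pos.1 (show 0 < B.card by omega)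
  apply hfree
  rw [SimpleGraph.completeBipartiteGraph_isContained_iff]
  refine ⟨A.image f, B.image f, ?_, ?_, ?_⟩
  · rw [Fintype.card_fin, card_image_of_injOn, hA]
    intro x hx y hy hxy
    exact hf.inj b x y (hAB hx (mem_coe.2 hb)).symm (hAB hy (mem_coe.2 hb)).symm hxy
  · rw [Fintype.card_fin, card_image_of_injOn, hB]
    intro x hx y hy hxy
    exact hf.inj a x y (hAB (mem_coe.2 ha) hx) (hAB (mem_coe.2 ha) hy) hxy
  · intro x hx y hy
    rw [coe_image] at hx hy
    obtain ⟨x', hx', rfl⟩ := hx
    obtain ⟨y', hy', rfl⟩ := hy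
    exact hf.hom x' y' (hAB hx' hy')

variable [Fintype V]

/-- the neighbours of a vertex -/
noncomputable def nb (G : SimpleGraph V) (v : V) : Finset V := by
  classical exact univ.filter (fun u => G.Adj v u)

theorem mem_nb {v u : V} : u ∈ nb G v ↔ G.Adj v u := by
  classical
  simp [nb]

theorem ncard_nb (v : V) : (G.neighborSet v).ncard = (nb G v).card := by
  rw [← Set.ncard_coe_finset]
  congr 1
  ext u
  simp [mem_nb]

theorem pow_le (d s : ℕ) : (d + 1 - s) ^ s ≤ s.factorial * d.choose s := by
  rw [← Nat.descFactorial_eq_factorial_mul_choose]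
  exact Nat.pow_sub_le_descFactorial d s

theorem le_pow (m s : ℕ) : s.factorial * m.choose s ≤ m ^ s := by
  rw [← Nat.descFactorial_eq_factorial_mul_choose]
  exact Nat.descFactorial_le_pow _ s

/-- The bound of Kővári, Sós and Turán for a set in which all degrees are at least `d`. -/
theorem kst {s t d : ℕ} (hs : 1 ≤ s) (hfree : (completeBipartiteGraph (Fin s) (Fin t)).Free G)
    (B : Finset V) (hB : ∀ v ∈ B, ∃ N ⊆ B, d ≤ N.card ∧ ∀ u ∈ N, G.Adj v u) (hne : B.Nonempty) :
    (d + 1 - s) ^ s ≤ (t - 1) * B.card ^ (s - 1) := by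
  classical
  have h1 : ∀ v ∈ B, d.choose s ≤ (bipartiteAbove (fun v S => ∀ u ∈ S, G.Adj v u)
      (powersetCard s B) v).card := by
    intro v hv
    obtain ⟨N, hN, hd, hN'⟩ := hB v hv
    calc d.choose s ≤ N.card.choose s := Nat.choose_le_choose s hd
      _ = (powersetCard s N).card := (card_powersetCard s N).symm
      _ ≤ _ := by
        apply card_le_card
        intro S hS
        rw [mem_powersetCard] at hS
        rw [mem_bipartiteAbove, mem_powersetCard]
        exact ⟨⟨hS.1.trans hN, hS.2⟩, fun u hu => hN' u (hS.1 hu)⟩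
  have h2 : ∀ S ∈ powersetCard s B, (bipartiteBelow (fun v S => ∀ u ∈ S, G.Adj v u) B S).card ≤
      t - 1 := by
    intro S hS
    rw [mem_powersetCard] at hS
    apply common hfree S _ (by omega)
    intro a ha b hb
    rw [mem_bipartiteBelow] at hb
    exact (hb.2 a ha).symm
  have h3 := sum_card_bipartiteAbove_eq_sum_card_bipartiteBelow
    (s := B) (t := powersetCard s B) (fun v S => ∀ u ∈ S, G.Adj v u)
  have h4 : B.card * d.choose s ≤ B.card.choose s * (t - 1) := by
    calc B.card * d.choose s = ∑ v ∈ B, d.choose s := by rw [sum_const, smul_eq_mul]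
      _ ≤ _ := sum_le_sum h1
      _ = _ := h3
      _ ≤ ∑ S ∈ powersetCard s B, (t - 1) := sum_le_sum h2
      _ = _ := by rw [sum_const, smul_eq_mul, card_powersetCard]
  have h7 : B.card * (d + 1 - s) ^ s ≤ B.card * ((t - 1) * B.card ^ (s - 1)) := by
    have e : B.card ^ s = B.card * B.card ^ (s - 1) := by
      rw [← pow_succ', Nat.sub_add_cancel hs]
    calc B.card * (d + 1 - s) ^ s ≤ B.card * (s.factorial * d.choose s) :=
          Nat.mul_le_mul_left _ (pow_le d s)
      _ = s.factorial * (B.card * d.choose s) := by ring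
      _ ≤ s.factorial * (B.card.choose s * (t - 1)) := Nat.mul_le_mul_left _ h4
      _ = s.factorial * B.card.choose s * (t - 1) := by ring
      _ ≤ B.card ^ s * (t - 1) := Nat.mul_le_mul_right _ (le_pow _ s)
      _ = B.card * ((t - 1) * B.card ^ (s - 1)) := by rw [e]; ring
  exact Nat.le_of_mul_le_mul_left h7 (card_pos.2 hne)

/-- Few vertices are mapped to common neighbours of two given vertices. -/
theorem codegree {s t δ : ℕ} (hs : 2 ≤ s)
    (hfree : (completeBipartiteGraph (Fin s) (Fin t)).Free H)
    (hδ : ∀ v, δ ≤ (nb G v).card) (hf : Imm G H f) {a b : W} (hab : a ≠ b) (X : Finset V)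
    (hinj : Set.InjOn f X) (ha : ∀ u ∈ X, H.Adj a (f u)) (hb : ∀ u ∈ X, H.Adj b (f u)) :
    X.card * (δ + 1 - s) ^ (s - 2) ≤ (t - 1) * Fintype.card V ^ (s - 2) := by
  classical
  set N : V → Finset W := fun u => ((nb G u).image f) \ {a, b} with hN
  set U : Finset W := univ.image f with hU
  have hNU : ∀ u, N u ⊆ U := fun u x hx => by
    rw [hN, mem_sdiff, mem_image] at hx
    obtain ⟨y, _, hy⟩ := hx.1
    exact mem_image.2 ⟨y, mem_univ _, hy⟩
  have hUc : U.card ≤ Fintype.card V := by
    rw [hU]
    exact card_image_le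
  have hNc : ∀ u, δ - 2 ≤ (N u).card := by
    intro u
    have h1 : ((nb G u).image f).card = (nb G u).card := by
      apply card_image_of_injOn
      intro x hx y hy hxy
      exact hf.inj u x y (mem_nb.1 hx) (mem_nb.1 hy) hxy
    have h2 := le_card_sdiff ({a, b} : Finset W) ((nb G u).image f)
    have h3 : ({a, b} : Finset W).card ≤ 2 := card_le_two
    have h4 := hδ u
    have h5 : (N u).card = (((nb G u).image f) \ {a, b}).card := rfl
    omega
  have h1 : ∀ u ∈ X, (δ - 2).choose (s - 2) ≤ (bipartiteAbove (fun u S => S ⊆ N u)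
      (powersetCard (s - 2) U) u).card := by
    intro u _
    calc (δ - 2).choose (s - 2) ≤ (N u).card.choose (s - 2) := Nat.choose_le_choose _ (hNc u)
      _ = (powersetCard (s - 2) (N u)).card := (card_powersetCard _ _).symm
      _ ≤ _ := by
        apply card_le_card
        intro S hS
        rw [mem_powersetCard] at hS
        rw [mem_bipartiteAbove, mem_powersetCard]
        exact ⟨⟨hS.1.trans (hNU u), hS.2⟩, hS.1⟩
  have h2 : ∀ S ∈ powersetCard (s - 2) U, (bipartiteBelow (fun u S => S ⊆ N u) X S).card ≤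
      t - 1 := by
    intro S hS
    rw [mem_powersetCard] at hS
    rcases (bipartiteBelow (fun u S => S ⊆ N u) X S).eq_empty_or_nonempty with he | ⟨u₀, hu₀⟩
    · rw [he]
      simp
    rw [mem_bipartiteBelow] at hu₀
    have hcard : (bipartiteBelow (fun u S => S ⊆ N u) X S).card =
        ((bipartiteBelow (fun u S => S ⊆ N u) X S).image f).card := by
      rw [card_image_of_injOn]
      intro x hx y hy hxy
      rw [mem_coe, mem_bipartiteBelow] at hx hy
      exact hinj hx.1 hy.1 hxy
    rw [hcard]
    apply common hfree (insert a (insert b S))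
    · have hbS : b ∉ S := by
        intro hbS
        have := hu₀.2 hbS
        rw [hN, mem_sdiff] at this
        exact this.2 (by simp)
      have haS : a ∉ insert b S := by
        intro haS
        rw [mem_insert] at haS
        rcases haS with h' | haS
        · exact hab h'
        have := hu₀.2 haS
        rw [hN, mem_sdiff] at this
        exact this.2 (by simp)
      rw [card_insert_of_notMem haS, card_insert_of_notMem hbS, hS.2]
      omega
    · intro x hx y hy
      rw [mem_image] at hy
      obtain ⟨u, hu, rfl⟩ := hy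
      rw [mem_bipartiteBelow] at hu
      rw [mem_insert, mem_insert] at hx
      rcases hx with rfl | rfl | hx
      · exact ha u hu.1
      · exact hb u hu.1
      · have := hu.2 hx
        rw [hN, mem_sdiff, mem_image] at this
        obtain ⟨w, hw, rfl⟩ := this.1
        exact (hf.hom u w (mem_nb.1 hw)).symm
  have h3 := sum_card_bipartiteAbove_eq_sum_card_bipartiteBelow
    (s := X) (t := powersetCard (s - 2) U) (fun u S => S ⊆ N u)
  have h4 : X.card * (δ - 2).choose (s - 2) ≤ (Fintype.card V).choose (s - 2) * (t - 1) := by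
    calc X.card * (δ - 2).choose (s - 2) = ∑ u ∈ X, (δ - 2).choose (s - 2) := by
          rw [sum_const, smul_eq_mul]
      _ ≤ _ := sum_le_sum h1
      _ = _ := h3
      _ ≤ ∑ S ∈ powersetCard (s - 2) U, (t - 1) := sum_le_sum h2
      _ = U.card.choose (s - 2) * (t - 1) := by rw [sum_const, smul_eq_mul, card_powersetCard]
      _ ≤ _ := Nat.mul_le_mul_right _ (Nat.choose_le_choose _ hUc)
  have h5 : (δ + 1 - s) ^ (s - 2) ≤ (s - 2).factorial * (δ - 2).choose (s - 2) := by
    refine le_trans (Nat.pow_le_pow_left ?_ _) (pow_le (δ - 2) (s - 2))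
    omega
  calc X.card * (δ + 1 - s) ^ (s - 2)
      ≤ X.card * ((s - 2).factorial * (δ - 2).choose (s - 2)) := Nat.mul_le_mul_left _ h5
    _ = (s - 2).factorial * (X.card * (δ - 2).choose (s - 2)) := by ring
    _ ≤ (s - 2).factorial * ((Fintype.card V).choose (s - 2) * (t - 1)) :=
        Nat.mul_le_mul_left _ h4
    _ = (t - 1) * ((s - 2).factorial * (Fintype.card V).choose (s - 2)) := by ring
    _ ≤ (t - 1) * Fintype.card V ^ (s - 2) := Nat.mul_le_mul_left _ (le_pow _ _)

/-- the vertices at which the two maps differ -/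
noncomputable def Mv (f h : V → W) : Finset V := by
  classical exact univ.filter (fun v => f v ≠ h v)

theorem mem_Mv {v : V} : v ∈ Mv f h ↔ f v ≠ h v := by
  classical
  simp [Mv]

/-- The main inequality. -/
theorem main {s t δ X : ℕ} (hs : 2 ≤ s) (ht : 1 ≤ t)
    (hfree : (completeBipartiteGraph (Fin s) (Fin t)).Free H)
    (hδ : ∀ v, δ ≤ (nb G v).card) (hf : Imm G H f) (hh : Imm G H h) (hne : ∃ v, f v ≠ h v)
    (hX : (t - 1) * Fintype.card V ^ (s - 2) < (X + 1) * (δ + 1 - s) ^ (s - 2)) :
    (δ + 1 - s - X) ^ s ≤ (t - 1) * (Mv f h).card ^ (s - 1) := by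
  classical
  have hkey : ∀ v ∈ Mv f h, ∃ N ⊆ Mv f h, δ - X ≤ N.card ∧ ∀ u ∈ N, G.Adj v u := by
    intro v hv
    refine ⟨(nb G v).filter (fun u => ¬ f u = h u), ?_, ?_,
      fun u hu => mem_nb.1 (mem_filter.1 hu).1⟩
    · intro u hu
      rw [mem_filter] at hu
      exact mem_Mv.2 hu.2
    · have h1 := codegree hs hfree hδ hf (mem_Mv.1 hv) ((nb G v).filter (fun u => f u = h u))
        (by
          intro x hx y hy hxy
          rw [mem_coe, mem_filter, mem_nb] at hx hy
          exact hf.inj v x y hx.1 hy.1 hxy)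
        (by
          intro u hu
          rw [mem_filter, mem_nb] at hu
          exact hf.hom v u hu.1)
        (by
          intro u hu
          rw [mem_filter, mem_nb] at hu
          rw [hu.2]
          exact hh.hom v u hu.1)
      have h2 : ((nb G v).filter (fun u => f u = h u)).card < X + 1 := by
        by_contra hcon
        push Not at hcon
        have := Nat.mul_le_mul_right ((δ + 1 - s) ^ (s - 2)) hcon
        omega
      have h3 := card_filter_add_card_filter_not (s := nb G v) (fun u => f u = h u)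
      have h4 := hδ v
      omega
  obtain ⟨v, hv⟩ := hne
  have h := kst (by omega) (hf.free (by omega) ht hfree) (Mv f h) hkey ⟨v, mem_Mv.2 hv⟩
  refine le_trans (Nat.pow_le_pow_left ?_ s) h
  omega

end Pool.Agent.Q266.KM
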