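import Pool.Agent.Q266.KM.Count

/-! The asymptotic form of the main inequality. -/

set_option autoImplicit false

open Finset

namespace Pool.Agent.Q266.KM

theorem asym (r t : ℕ) (ht : 1 ≤ t) (c : ℝ) (hc : 0 < c) : ∃ c' : ℝ, 0 < c' ∧ ∃ n₀ : ℕ,
    ∀ n m δ : ℕ, n₀ ≤ n → c * (n : ℝ) ^ (1 - 1 / ((r + 2 : ℕ) : ℝ)) ≤ (δ : ℝ) →
      (∀ X : ℕ, (t - 1) * n ^ r < (X + 1) * (δ + 1 - (r + 2)) ^ r →
        (δ + 1 - (r + 2) - X) ^ (r + 2) ≤ (t - 1) * m ^ (r + 1)) →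
      c' * (n : ℝ) ≤ (m : ℝ) := by
  have ht0 : (0 : ℝ) < t := by exact_mod_cast ht
  set K : ℝ := ((t : ℝ) - 1) * (2 / c) ^ r with hK
  have ht1 : (0 : ℝ) ≤ (t : ℝ) - 1 := by
    have : (1 : ℝ) ≤ t := by exact_mod_cast ht
    linarith
  have hK0 : 0 ≤ K := by positivity
  set A : ℝ := 1 + 2 * ((r : ℝ) + 2) / c + 4 * K / c with hA
  have hA1 : 1 ≤ A := by
    have h1 : 0 ≤ 2 * ((r : ℝ) + 2) / c := by positivity
    have h2 : 0 ≤ 4 * K / c := by positivity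
    linarith
  have hc'0 : 0 < ((c / 4) ^ (r + 2) / t) ^ (1 / ((r : ℝ) + 1)) := by positivity
  refine ⟨((c / 4) ^ (r + 2) / t) ^ (1 / ((r : ℝ) + 1)), hc'0, ⌈A ^ (r + 2)⌉₊, ?_⟩
  intro n m δ hn hδ hX
  set N : ℝ := (n : ℝ) ^ (1 / ((r + 2 : ℕ) : ℝ)) with hN
  have hn' : A ^ (r + 2) ≤ (n : ℝ) := (Nat.ceil_le.1 hn)
  have hn0 : (0 : ℝ) < n := lt_of_lt_of_le (by positivity) hn'
  have hNs : N ^ (r + 2) = n := by
    rw [hN, ← Real.rpow_natCast, ← Real.rpow_mul hn0.le, one_div,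
      inv_mul_cancel₀ (by positivity), Real.rpow_one]
  have hN0 : 0 < N := Real.rpow_pos_of_pos hn0 _
  have hNA : A ≤ N := by
    apply le_of_pow_le_pow_left₀ (n := r + 2) (by omega) hN0.le
    rw [hNs]
    exact hn'
  have hN1 : 1 ≤ N := hA1.trans hNA
  have hNs1 : (n : ℝ) ^ (1 - 1 / ((r + 2 : ℕ) : ℝ)) = N ^ (r + 1) := by
    rw [Real.rpow_sub hn0, Real.rpow_one, div_eq_iff (Real.rpow_pos_of_pos hn0 _).ne', ← hN,
      ← pow_succ]
    exact hNs.symm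
  rw [hNs1] at hδ
  have hNN : N ≤ N ^ (r + 1) := le_self_pow₀ hN1 (by omega)
  -- the number `δ + 1 - s`
  have he : c / 2 * N ^ (r + 1) ≤ ((δ + 1 - (r + 2) : ℕ) : ℝ) := by
    have h1 : ((δ : ℝ) + 1) - ((r : ℝ) + 2) ≤ ((δ + 1 - (r + 2) : ℕ) : ℝ) := by
      have : (δ + 1 : ℕ) ≤ (δ + 1 - (r + 2)) + (r + 2) := by omega
      have : ((δ + 1 : ℕ) : ℝ) ≤ ((δ + 1 - (r + 2) + (r + 2) : ℕ) : ℝ) := by exact_mod_cast this
      push_cast at this
      push_cast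
      linarith
    have h2 : (r : ℝ) + 2 ≤ c / 2 * N ^ (r + 1) := by
      have h3 : 2 * ((r : ℝ) + 2) / c ≤ N := by
        have h2 : 0 ≤ 4 * K / c := by positivity
        linarith
      have h4 : 2 * ((r : ℝ) + 2) ≤ N * c := by rwa [div_le_iff₀ hc] at h3
      have h5 : N * c ≤ N ^ (r + 1) * c := mul_le_mul_of_nonneg_right hNN hc.le
      linarith
    linarith
  set X : ℕ := ⌊K * N ^ r⌋₊ with hXdef
  have hXl : (X : ℝ) ≤ K * N ^ r := Nat.floor_le (by positivity)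
  have hXu : K * N ^ r < (X : ℝ) + 1 := Nat.lt_floor_add_one _
  have hcond : (t - 1) * n ^ r < (X + 1) * (δ + 1 - (r + 2)) ^ r := by
    have h1 : (((t - 1) * n ^ r : ℕ) : ℝ) < (((X + 1) * (δ + 1 - (r + 2)) ^ r : ℕ) : ℝ) := by
      rw [Nat.cast_mul, Nat.cast_mul, Nat.cast_pow, Nat.cast_pow, Nat.cast_sub ht,
        Nat.cast_one, Nat.cast_add, Nat.cast_one]
      have h2 : (c / 2 * N ^ (r + 1)) ^ r ≤ ((δ + 1 - (r + 2) : ℕ) : ℝ) ^ r :=
        pow_le_pow_left₀ (by positivity) he r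
      have h3 : ((t : ℝ) - 1) * (n : ℝ) ^ r = K * N ^ r * (c / 2 * N ^ (r + 1)) ^ r := by
        rw [hK, ← hNs]
        have h4 : (2 / c) ^ r * (c / 2) ^ r = 1 := by
          rw [← mul_pow, div_mul_div_cancel₀ (by positivity), div_self (by norm_num), one_pow]
        calc ((t : ℝ) - 1) * (N ^ (r + 2)) ^ r
            = ((t : ℝ) - 1) * (N ^ (r + 2)) ^ r * ((2 / c) ^ r * (c / 2) ^ r) := by
              rw [h4, mul_one]
          _ = ((t : ℝ) - 1) * (2 / c) ^ r * N ^ r * (c / 2 * N ^ (r + 1)) ^ r := by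
              rw [mul_pow, ← pow_mul, ← pow_mul]
              ring
      rw [h3]
      have h5 : 0 < (c / 2 * N ^ (r + 1)) ^ r := by positivity
      calc K * N ^ r * (c / 2 * N ^ (r + 1)) ^ r < ((X : ℝ) + 1) * (c / 2 * N ^ (r + 1)) ^ r :=
            mul_lt_mul_of_pos_right hXu h5
        _ ≤ _ := mul_le_mul_of_nonneg_left h2 (by positivity)
    exact_mod_cast h1
  have hmain := hX X hcond
  have h1 : c / 4 * N ^ (r + 1) ≤ ((δ + 1 - (r + 2) - X : ℕ) : ℝ) := by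
    have h2 : ((δ + 1 - (r + 2) : ℕ) : ℝ) - (X : ℝ) ≤ ((δ + 1 - (r + 2) - X : ℕ) : ℝ) := by
      have : (δ + 1 - (r + 2) : ℕ) ≤ (δ + 1 - (r + 2) - X) + X := by omega
      have : ((δ + 1 - (r + 2) : ℕ) : ℝ) ≤ ((δ + 1 - (r + 2) - X + X : ℕ) : ℝ) := by
        exact_mod_cast this
      rw [Nat.cast_add] at this
      linarith
    have h3 : K * N ^ r ≤ c / 4 * N ^ (r + 1) := by
      have h4 : 4 * K / c ≤ N := by
        have h2 : 0 ≤ 2 * ((r : ℝ) + 2) / c := by positivity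
        linarith
      have h5 : 4 * K ≤ N * c := by rwa [div_le_iff₀ hc] at h4
      have h6 : 0 < N ^ r := by positivity
      rw [pow_succ]
      nlinarith
    linarith
  have h2 : (c / 4 * N ^ (r + 1)) ^ (r + 2) ≤ (t : ℝ) * (m : ℝ) ^ (r + 1) := by
    have h3 : (((δ + 1 - (r + 2) - X) ^ (r + 2) : ℕ) : ℝ) ≤ (((t - 1) * m ^ (r + 1) : ℕ) : ℝ) := by
      exact_mod_cast hmain
    rw [Nat.cast_pow, Nat.cast_mul, Nat.cast_pow, Nat.cast_sub ht, Nat.cast_one] at h3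
    have h4 : (c / 4 * N ^ (r + 1)) ^ (r + 2) ≤
        ((δ + 1 - (r + 2) - X : ℕ) : ℝ) ^ (r + 2) := pow_le_pow_left₀ (by positivity) h1 _
    have h5 : 0 ≤ (m : ℝ) ^ (r + 1) := by positivity
    nlinarith
  have h3 : (c / 4 * N ^ (r + 1)) ^ (r + 2) = (c / 4) ^ (r + 2) * (n : ℝ) ^ (r + 1) := by
    rw [mul_pow, ← hNs, ← pow_mul, ← pow_mul]
    ring
  rw [h3] at h2
  apply le_of_pow_le_pow_left₀ (n := r + 1) (by omega) (Nat.cast_nonneg m)
  have h4 : (((c / 4) ^ (r + 2) / t) ^ (1 / ((r : ℝ) + 1))) ^ (r + 1) = (c / 4) ^ (r + 2) / t := by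
    rw [← Real.rpow_natCast, ← Real.rpow_mul (by positivity)]
    push_cast
    rw [one_div, inv_mul_cancel₀ (by positivity), Real.rpow_one]
  rw [mul_pow, h4, div_mul_eq_mul_div, div_le_iff₀ ht0]
  linarith

end Pool.Agent.Q266.KM
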