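import Pool.Agent.Q266.KM.Count
import Pool.Agent.TH815.GR10

/-!
# Dense graphs and regular bipartite graphs in classes closed under immersions
-/

set_option autoImplicit false

open Finset

namespace Pool.Agent.Q266.KM

open Pool.TH815.GR

/-- A class of graphs is inherited under immersions (locally injective homomorphisms). -/
def ImmClosed (P : (V : Type) → SimpleGraph V → Prop) : Prop :=
  ∀ (V W : Type) (G : SimpleGraph V) (H : SimpleGraph W) (f : V → W), Imm G H f → P W H → P V G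

/-- the disjoint union of `n / m` copies of `G` -/
def copG (m n : ℕ) (hm : 0 < m) (G : SimpleGraph (Fin m)) : SimpleGraph (Fin n) where
  Adj i j := i.val < n / m * m ∧ j.val < n / m * m ∧ i.val / m = j.val / m ∧
    G.Adj ⟨i.val % m, Nat.mod_lt _ hm⟩ ⟨j.val % m, Nat.mod_lt _ hm⟩
  symm := by
    constructor
    rintro i j ⟨h1, h2, h3, h4⟩
    exact ⟨h2, h1, h3.symm, h4.symm⟩
  loopless := ⟨fun i h => G.irrefl h.2.2.2⟩

theorem cop_inj (m : ℕ) {n : ℕ} {i j : Fin n} (h1 : i.val / m = j.val / m)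
    (h2 : i.val % m = j.val % m) : i = j := by
  apply Fin.ext
  rw [← Nat.div_add_mod i.val m, ← Nat.div_add_mod j.val m, h1, h2]

/-- disjoint copies: from a graph on `m ≤ n` vertices of minimum degree at least `d` one gets a
graph on `n` vertices with an immersion to it with at least `n d / 4` edges. -/
theorem copies (m n d : ℕ) (hm : 0 < m) (hmn : m ≤ n) (G : SimpleGraph (Fin m))
    [DecidableRel G.Adj] (hd : ∀ v, d ≤ G.degree v) :
    ∃ H : SimpleGraph (Fin n), (∃ f, Imm H G f) ∧ n * d ≤ 4 * H.edgeSet.ncard := by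
  classical
  refine ⟨copG m n hm G, ⟨fun i => ⟨i.val % m, Nat.mod_lt _ hm⟩, fun u v h => h.2.2.2,
    fun v u u' h h' he => cop_inj m (h.2.2.1.symm.trans h'.2.2.1) (congrArg Fin.val he)⟩, ?_⟩
  · have hdeg : ∀ i : Fin n, i.val < n / m * m → d ≤ (copG m n hm G).degree i := by
      intro i hi
      apply (hd ⟨i.val % m, Nat.mod_lt _ hm⟩).trans
      rw [← SimpleGraph.card_neighborFinset_eq_degree, ← SimpleGraph.card_neighborFinset_eq_degree]
      have hlt : ∀ j : Fin m, i.val / m * m + j.val < n / m * m := by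
        intro j
        have h1 : i.val / m < n / m := by
          rw [Nat.div_lt_iff_lt_mul hm]; exact hi
        have h2 : (i.val / m + 1) * m ≤ n / m * m := Nat.mul_le_mul_right m h1
        have := j.isLt
        rw [Nat.add_mul] at h2
        omega
      have hn : n / m * m ≤ n := Nat.div_mul_le_self n m
      apply Finset.card_le_card_of_injOn
        (fun j : Fin m => (⟨i.val / m * m + j.val, (hlt j).trans_le hn⟩ : Fin n))
      · intro j hj
        have hj' : G.Adj ⟨i.val % m, Nat.mod_lt _ hm⟩ j := by simpa using hj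
        have h1 : (i.val / m * m + j.val) / m = i.val / m := by
          rw [Nat.mul_comm, Nat.mul_add_div hm, Nat.div_eq_of_lt j.isLt, add_zero]
        have h2 : (i.val / m * m + j.val) % m = j.val := by
          rw [Nat.mul_comm, Nat.mul_add_mod, Nat.mod_eq_of_lt j.isLt]
        have h3 : (copG m n hm G).Adj i ⟨i.val / m * m + j.val, (hlt j).trans_le hn⟩ := by
          refine ⟨hi, hlt j, h1.symm, ?_⟩
          have h4 : (⟨(i.val / m * m + j.val) % m, Nat.mod_lt _ hm⟩ : Fin m) = j := Fin.ext h2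
          show G.Adj _ (⟨(i.val / m * m + j.val) % m, Nat.mod_lt _ hm⟩ : Fin m)
          rw [h4]
          exact hj'
        simpa using h3
      · intro j _ j' _ hjj
        have := congrArg Fin.val hjj
        apply Fin.ext
        simp only at this
        omega
    have hsum := (copG m n hm G).sum_degrees_eq_twice_card_edges
    have hcard : (copG m n hm G).edgeFinset.card = (copG m n hm G).edgeSet.ncard := by
      rw [Set.ncard_eq_toFinset_card']
      rfl
    rw [hcard] at hsum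
    have h1 : n / m * m * d ≤ ∑ v, (copG m n hm G).degree v := by
      have h2 : ∑ v ∈ Finset.univ.filter (fun i : Fin n => i.val < n / m * m),
          (copG m n hm G).degree v ≤ ∑ v, (copG m n hm G).degree v :=
        Finset.sum_le_sum_of_subset (Finset.filter_subset _ _)
      refine le_trans ?_ h2
      have h3 : (Finset.univ.filter (fun i : Fin n => i.val < n / m * m)).card = n / m * m := by
        rw [Fin.card_filter_val_lt]
        exact min_eq_right (Nat.div_mul_le_self n m)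
      have h4 := Finset.card_nsmul_le_sum
        (Finset.univ.filter (fun i : Fin n => i.val < n / m * m))
        (fun v => (copG m n hm G).degree v) d (fun v hv => hdeg v (by simpa using hv))
      rw [h3, smul_eq_mul] at h4
      exact h4
    have h5 : n ≤ 2 * (n / m * m) := by
      have h6 : 1 ≤ n / m := by
        rw [Nat.one_le_div_iff hm]; exact hmn
      have h7 : n % m < m := Nat.mod_lt _ hm
      have h8 : m ≤ n / m * m := by
        calc m = 1 * m := (one_mul m).symm
          _ ≤ n / m * m := Nat.mul_le_mul_right m h6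
      have h9 := Nat.div_add_mod n m
      rw [Nat.mul_comm] at h9
      omega
    calc n * d ≤ 2 * (n / m * m) * d := Nat.mul_le_mul_right d h5
      _ = 2 * (n / m * m * d) := by ring
      _ ≤ 2 * ∑ v, (copG m n hm G).degree v := Nat.mul_le_mul_left 2 h1
      _ = 4 * (copG m n hm G).edgeSet.ncard := by rw [hsum]; ring

/-- The bipartite graph of a relation with a nonbacktracking projection. -/
theorem bip_graph {V : Type} (G : SimpleGraph V) (m d : ℕ)
    (I : Fin m → Fin m → Prop) (π : Fin m → V) (h1 : ∀ a b, I a b → G.Adj (π a) (π b))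
    (h2 : ∀ a b b', I a b → I a b' → b ≠ b' → π b ≠ π b')
    (h3 : ∀ a a' b, I a b → I a' b → a ≠ a' → π a ≠ π a')
    (hr : ∀ a, {b | I a b}.ncard = d) (hc : ∀ b, {a | I a b}.ncard = d) :
    ∃ B : SimpleGraph (Fin m ⊕ Fin m), Imm B G (Sum.elim π π) ∧
      (∀ x y, ¬ B.Adj (Sum.inl x) (Sum.inl y)) ∧ (∀ x y, ¬ B.Adj (Sum.inr x) (Sum.inr y)) ∧
      ∀ z, (B.neighborSet z).ncard = d := by
  classical
  set B : SimpleGraph (Fin m ⊕ Fin m) := SimpleGraph.fromRel (fun x y : Fin m ⊕ Fin m =>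
      ∃ a b, x = Sum.inl a ∧ y = Sum.inr b ∧ I a b) with hB
  have hlr : ∀ a b, B.Adj (Sum.inl a) (Sum.inr b) ↔ I a b := by
    intro a b
    rw [hB, SimpleGraph.fromRel_adj]
    constructor
    · rintro ⟨-, ⟨a', b', h1, h2, h3⟩ | ⟨a', b', h1, h2, h3⟩⟩
      · rw [Sum.inl.inj h1, Sum.inr.inj h2]; exact h3
      · cases h1
    · intro h
      exact ⟨by simp, Or.inl ⟨a, b, rfl, rfl, h⟩⟩
  have hll : ∀ a b, ¬ B.Adj (Sum.inl a) (Sum.inl b) := by
    intro a b
    rw [hB, SimpleGraph.fromRel_adj]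
    rintro ⟨-, ⟨a', b', h1, h2, h3⟩ | ⟨a', b', h1, h2, h3⟩⟩
    · cases h2
    · cases h2
  have hrr : ∀ a b, ¬ B.Adj (Sum.inr a) (Sum.inr b) := by
    intro a b
    rw [hB, SimpleGraph.fromRel_adj]
    rintro ⟨-, ⟨a', b', h1, h2, h3⟩ | ⟨a', b', h1, h2, h3⟩⟩
    · cases h1
    · cases h1
  refine ⟨B, ?_, hll, hrr, ?_⟩
  · refine ⟨?_, ?_⟩
    · rintro (a | a) (b | b) h
      · exact absurd h (hll a b)
      · exact h1 _ _ ((hlr a b).1 h)
      · exact (h1 _ _ ((hlr b a).1 h.symm)).symm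
      · exact absurd h (hrr a b)
    · rintro (v | v) (u | u) (u' | u') h h' he
      · exact absurd h (hll v u)
      · exact absurd h (hll v u)
      · exact absurd h' (hll v u')
      · by_contra hne
        exact h2 v u u' ((hlr v u).1 h) ((hlr v u').1 h') (fun h0 => hne (by rw [h0])) he
      · by_contra hne
        exact h3 u u' v ((hlr u v).1 h.symm) ((hlr u' v).1 h'.symm) (fun h0 => hne (by rw [h0])) he
      · exact absurd h' (hrr v u')
      · exact absurd h (hrr v u)
      · exact absurd h (hrr v u)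
  · rintro (a | b)
    · have e : B.neighborSet (Sum.inl a) = Sum.inr '' {b | I a b} := by
        ext z
        rw [SimpleGraph.mem_neighborSet]
        constructor
        · intro hz
          rcases z with b | b
          · exact absurd hz (hll a b)
          · exact ⟨b, (hlr a b).1 hz, rfl⟩
        · rintro ⟨b, hb, rfl⟩
          exact (hlr a b).2 hb
      rw [e, Set.ncard_image_of_injective _ Sum.inr_injective, hr]
    · have e : B.neighborSet (Sum.inr b) = Sum.inl '' {a | I a b} := by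
        ext z
        rw [SimpleGraph.mem_neighborSet]
        constructor
        · intro hz
          rcases z with a | a
          · exact ⟨a, (hlr a b).1 hz.symm, rfl⟩
          · exact absurd hz (hrr b a)
        · rintro ⟨a, ha, rfl⟩
          exact ((hlr a b).2 ha).symm
      rw [e, Set.ncard_image_of_injective _ Sum.inl_injective, hc]

/-- From a graph with more than `(q - 1) n` edges, `q` prime, to a `d`-regular bipartite graph,
`d ≤ q`. -/
theorem regular_of_dense {V : Type} [Fintype V] [DecidableEq V] (G : SimpleGraph V)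
    [DecidableRel G.Adj] (q d : ℕ) (hq : q.Prime)
    (hdq : d ≤ q) (he : (q - 1) * Fintype.card V < G.edgeFinset.card) :
    ∃ (m : ℕ) (B : SimpleGraph (Fin m ⊕ Fin m)), 0 < m ∧ m * q ≤ 2 * G.edgeFinset.card ∧
      (∃ f, Imm B G f) ∧
      (∀ x y, ¬ B.Adj (Sum.inl x) (Sum.inl y)) ∧ (∀ x y, ¬ B.Adj (Sum.inr x) (Sum.inr y)) ∧
      ∀ z, (B.neighborSet z).ncard = d := by
  classical
  have : Fact q.Prime := ⟨hq⟩
  obtain ⟨F, hFG, ⟨a0, b0, hab⟩, hdiv⟩ := exists_mod G q he
  have hdeg : ∀ v, F.degree v = (F.neighborSet v).ncard := by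
    intro v
    rw [← F.card_neighborFinset_eq_degree, ← Set.ncard_coe_finset, F.coe_neighborFinset]
  have hdiv' : ∀ v, q ∣ F.degree v := fun v => by rw [hdeg]; exact hdiv v
  obtain ⟨W, iW, dW, E, dE, π, hcard, hsymm, hreg, hadj, hnb⟩ := split F q hq.pos hdiv'
  obtain ⟨R, dR, hRE, hR1, hR2⟩ := exists_regular_sub d (q - d) E (by
    intro a
    rw [hreg a]
    omega) (by
    intro b
    have : (univ.filter fun a => E a b) = (univ.filter fun a => E b a) := by
      ext a
      simp only [mem_filter, mem_univ, true_and]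
      exact ⟨fun h => hsymm _ _ h, fun h => hsymm _ _ h⟩
    rw [this, hreg b]
    omega)
  set m := Fintype.card W with hm
  let e : Fin m ≃ W := (Fintype.equivFin W).symm
  have hmpos : 0 < m := by
    have h1 : 0 < F.degree a0 := by
      rw [F.degree_pos_iff_exists_adj]
      exact ⟨b0, hab⟩
    have h2 : F.degree a0 ≤ ∑ v, F.degree v :=
      single_le_sum (f := fun v => F.degree v) (fun _ _ => Nat.zero_le _) (mem_univ a0)
    rw [← hcard] at h2
    exact Nat.pos_of_mul_pos_right (lt_of_lt_of_le h1 h2)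
  obtain ⟨B, hB0, hB⟩ := bip_graph G m d (fun a b => R (e a) (e b)) (fun a => π (e a))
    (fun a b h => hFG (hadj _ _ (hRE _ _ h)))
    (fun a b b' h h' hne => hnb _ _ _ (hRE _ _ h) (hRE _ _ h') (fun h0 => hne (e.injective h0)))
    (fun a a' b h h' hne => hnb _ _ _ (hsymm _ _ (hRE _ _ h)) (hsymm _ _ (hRE _ _ h'))
      (fun h0 => hne (e.injective h0))) (by
    intro a
    rw [← Set.ncard_image_of_injective _ e.injective, ← hR1 (e a), ← Set.ncard_coe_finset]
    congr 1
    ext w
    simp only [Set.mem_image, coe_filter, mem_univ, true_and]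
    constructor
    · rintro ⟨b, hb, rfl⟩
      exact hb
    · intro hw
      refine ⟨e.symm w, ?_, by simp⟩
      show R (e a) (e (e.symm w))
      rw [e.apply_symm_apply]
      exact hw) (by
    intro b
    rw [← Set.ncard_image_of_injective _ e.injective, ← hR2 (e b), ← Set.ncard_coe_finset]
    congr 1
    ext w
    simp only [Set.mem_image, coe_filter, mem_univ, true_and]
    constructor
    · rintro ⟨a, ha, rfl⟩
      exact ha
    · intro hw
      refine ⟨e.symm w, ?_, by simp⟩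
      show R (e (e.symm w)) (e b)
      rw [e.apply_symm_apply]
      exact hw)
  refine ⟨m, B, hmpos, ?_, ⟨_, hB0⟩, hB⟩
  rw [hcard, ← G.sum_degrees_eq_twice_card_edges]
  apply sum_le_sum
  intro v _
  exact SimpleGraph.degree_le_of_le hFG

theorem exists_sub {V : Type} [Fintype V] [DecidableEq V] (G : SimpleGraph V) [DecidableRel G.Adj]
    (e0 : ℕ) (h : e0 ≤ G.edgeFinset.card) :
    ∃ (G' : SimpleGraph V) (_ : DecidableRel G'.Adj), G' ≤ G ∧ G'.edgeFinset.card = e0 := by
  classical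
  obtain ⟨T, hT, hTc⟩ := Finset.exists_subset_card_eq h
  refine ⟨SimpleGraph.fromEdgeSet (T : Set (Sym2 V)), Classical.decRel _, ?_, ?_⟩
  · intro a b hab
    rw [SimpleGraph.fromEdgeSet_adj] at hab
    have := hT hab.1
    rwa [SimpleGraph.mem_edgeFinset, SimpleGraph.mem_edgeSet] at this
  · rw [← hTc, ← Set.ncard_coe_finset T, ← Set.ncard_coe_finset, SimpleGraph.coe_edgeFinset,
      SimpleGraph.edgeSet_fromEdgeSet]
    congr 1
    ext e
    constructor
    · exact fun h => h.1
    · intro he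
      refine ⟨he, ?_⟩
      have := hT he
      rw [SimpleGraph.mem_edgeFinset] at this
      exact G.not_isDiag_of_mem_edgeSet this

variable (P : (V : Type) → SimpleGraph V → Prop)

/-- Dense graphs of the class in all large orders, exponent `1 + α`. -/
def DenseForm (α : ℝ) : Prop :=
  ∃ c : ℝ, 0 < c ∧ ∃ N : ℕ, ∀ n ≥ N, ∃ G : SimpleGraph (Fin n),
    P (Fin n) G ∧ c * (n : ℝ) ^ (1 + α) ≤ (G.edgeSet.ncard : ℝ)

/-- Regular bipartite graphs of the class of all degrees, with `O(d ^ (1 / α))` vertices. -/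
def RegForm (α : ℝ) : Prop :=
  ∃ C : ℝ, ∀ d : ℕ, 1 ≤ d → ∃ (m : ℕ) (G : SimpleGraph (Fin m ⊕ Fin m)), 0 < m ∧
    (m : ℝ) ≤ C * (d : ℝ) ^ (1 / α) ∧ P (Fin m ⊕ Fin m) G ∧
    (∀ x y, ¬ G.Adj (Sum.inl x) (Sum.inl y)) ∧ (∀ x y, ¬ G.Adj (Sum.inr x) (Sum.inr y)) ∧
    ∀ z, (G.neighborSet z).ncard = d

variable {P}

theorem regForm_of_denseForm (hP : ImmClosed P) {α : ℝ} (hα : 0 < α) (h : DenseForm P α) :
    RegForm P α := by
  classical
  obtain ⟨c, hc, N, hN⟩ := h
  obtain ⟨t, ht⟩ := exists_nat_ge (max (2 / c) ((N : ℝ) ^ α + 1))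
  have ht1 : 2 / c ≤ (t : ℝ) := (le_max_left _ _).trans ht
  have ht2 : (N : ℝ) ^ α + 1 ≤ t := (le_max_right _ _).trans ht
  have hNa : 0 ≤ (N : ℝ) ^ α := by positivity
  have ht4 : (1 : ℝ) ≤ t := by linarith
  have htpos : (0 : ℝ) < t := by linarith
  refine ⟨4 * (c * t + 1) * (t : ℝ) ^ (1 / α), fun d hd => ?_⟩
  have hd1 : (1 : ℝ) ≤ d := by exact_mod_cast hd
  obtain ⟨q, hq, hdq, hq2⟩ := Nat.exists_prime_lt_and_le_two_mul d (by omega)
  have htd : (1 : ℝ) ≤ t * d := by nlinarith
  set r : ℝ := (t * d : ℝ) ^ (1 / α) with hr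
  have hr1 : 1 ≤ r := Real.one_le_rpow htd (by positivity)
  set n : ℕ := ⌈r⌉₊ with hn
  have hrn : r ≤ n := Nat.le_ceil _
  have hn2 : (n : ℝ) ≤ 2 * r := by
    have := Nat.ceil_lt_add_one (by linarith : 0 ≤ r)
    linarith
  have hnpos' : (0 : ℝ) < n := by linarith
  have hnpos : 0 < n := by exact_mod_cast hnpos'
  have hra : r ^ α = t * d := by
    rw [hr, ← Real.rpow_mul (by positivity)]
    have : 1 / α * α = 1 := by field_simp
    rw [this, Real.rpow_one]
  have hnN : n ≥ N := by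
    have h1 : ((N : ℝ)) ≤ r := by
      have h2 : (N : ℝ) ^ α ≤ t * d := by
        have : (t : ℝ) * 1 ≤ t * d := mul_le_mul_of_nonneg_left hd1 htpos.le
        linarith
      have h3 := Real.rpow_le_rpow hNa h2 (by positivity : 0 ≤ 1 / α)
      rw [← Real.rpow_mul (Nat.cast_nonneg N)] at h3
      have : α * (1 / α) = 1 := by field_simp
      rw [this, Real.rpow_one] at h3
      exact h3
    have : (N : ℝ) ≤ n := h1.trans hrn
    exact_mod_cast this
  obtain ⟨G, hG, hE⟩ := hN n hnN
  have hpow : (n : ℝ) * (t * d) ≤ (n : ℝ) ^ (1 + α) := by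
    rw [Real.rpow_add hnpos', Real.rpow_one, ← hra]
    exact mul_le_mul_of_nonneg_left (Real.rpow_le_rpow (by linarith) hrn hα.le) hnpos'.le
  have hedge : (G.edgeFinset.card : ℝ) = (G.edgeSet.ncard : ℝ) := by
    rw [← SimpleGraph.coe_edgeFinset, Set.ncard_coe_finset]
  rw [← hedge] at hE
  have hct : 2 ≤ c * t := by
    rw [div_le_iff₀ hc] at ht1
    linarith
  set s : ℝ := c * (n * (t * d)) with hs
  have hsE : s ≤ (G.edgeFinset.card : ℝ) :=
    (mul_le_mul_of_nonneg_left hpow hc.le).trans hE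
  have hs0 : 0 ≤ s := by positivity
  obtain ⟨G', dG', hle, hcard⟩ := exists_sub G ⌈s⌉₊ (Nat.ceil_le.2 hsE)
  have hgc : P (Fin n) G' := hP _ _ G' G id ⟨fun u v h => hle h, fun _ _ _ _ _ h => h⟩ hG
  have hlow : 2 * (d : ℝ) * n ≤ s := by
    have : 2 * ((n : ℝ) * d) ≤ c * t * (n * d) := mul_le_mul_of_nonneg_right hct (by positivity)
    rw [hs]
    linarith
  have hlow2 : 2 * d * n ≤ ⌈s⌉₊ := by
    have h1 : 2 * (d : ℝ) * n ≤ (⌈s⌉₊ : ℝ) := hlow.trans (Nat.le_ceil _)
    exact_mod_cast h1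
  have hlt : (q - 1) * Fintype.card (Fin n) < G'.edgeFinset.card := by
    rw [Fintype.card_fin, hcard]
    have h1 : 1 ≤ q := hq.one_lt.le
    calc (q - 1) * n < q * n := Nat.mul_lt_mul_of_pos_right (by omega) hnpos
      _ ≤ 2 * d * n := Nat.mul_le_mul_right _ hq2
      _ ≤ _ := hlow2
  obtain ⟨m, B, hm, hmq, ⟨f, hf⟩, hB⟩ := regular_of_dense G' q d hq hdq.le hlt
  refine ⟨m, B, hm, ?_, hP _ _ B G' f hf hgc, hB⟩
  rw [hcard] at hmq
  have hmq' : (m : ℝ) * q ≤ 2 * (⌈s⌉₊ : ℝ) := by exact_mod_cast hmq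
  have hceil : (⌈s⌉₊ : ℝ) ≤ s + 1 := (Nat.ceil_lt_add_one hs0).le
  have hqd : (d : ℝ) ≤ q := by exact_mod_cast hdq.le
  have hn1 : (1 : ℝ) ≤ n := by exact_mod_cast hnpos
  have hnd : (1 : ℝ) ≤ n * d := by nlinarith
  have hmd : (m : ℝ) * d ≤ 2 * (c * t + 1) * n * d := by
    calc (m : ℝ) * d ≤ m * q := mul_le_mul_of_nonneg_left hqd (Nat.cast_nonneg _)
      _ ≤ 2 * (s + 1) := hmq'.trans (by linarith)
      _ ≤ 2 * (c * t + 1) * n * d := by
        rw [hs]
        nlinarith
  have hm2 : (m : ℝ) ≤ 2 * (c * t + 1) * n := le_of_mul_le_mul_right hmd (by linarith)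
  have hrr : r = (t : ℝ) ^ (1 / α) * (d : ℝ) ^ (1 / α) := by
    rw [hr, Real.mul_rpow (by positivity) (by positivity)]
  calc (m : ℝ) ≤ 2 * (c * t + 1) * n := hm2
    _ ≤ 2 * (c * t + 1) * (2 * r) := mul_le_mul_of_nonneg_left hn2 (by positivity)
    _ = _ := by rw [hrr]; ring

theorem denseForm_of_regForm (hP : ImmClosed P) {α : ℝ} (hα : 0 < α) (h : RegForm P α) :
    DenseForm P α := by
  classical
  obtain ⟨C, hC⟩ := h
  have hC0 : 0 < C := by
    obtain ⟨m, G, hm, hm2, -⟩ := hC 1 le_rfl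
    have : (0 : ℝ) < m := by exact_mod_cast hm
    simp at hm2
    linarith
  refine ⟨1 / (8 * (2 * C) ^ α), by positivity, ⌈2 * C⌉₊ , fun n hn => ?_⟩
  have hnC : 2 * C ≤ n := (Nat.le_ceil _).trans (by exact_mod_cast hn)
  have hn0 : (0 : ℝ) < n := by linarith
  set r : ℝ := (n / (2 * C)) ^ α with hr
  have hr1 : 1 ≤ r := Real.one_le_rpow (by rw [le_div_iff₀ (by positivity)]; linarith) hα.le
  have hrk : r ^ (1 / α) = n / (2 * C) := by
    rw [hr, ← Real.rpow_mul (by positivity)]
    have : α * (1 / α) = 1 := by field_simp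
    rw [this, Real.rpow_one]
  set d : ℕ := ⌊r⌋₊ with hd
  have hd1 : 1 ≤ d := by
    rw [hd, Nat.le_floor_iff (by linarith)]
    exact_mod_cast hr1
  have hdr : (d : ℝ) ≤ r := Nat.floor_le (by linarith)
  have hdr2 : r / 2 ≤ d := by
    have h1 : r < d + 1 := Nat.lt_floor_add_one r
    have h2 : (1 : ℝ) ≤ d := by exact_mod_cast hd1
    linarith
  obtain ⟨m, G, hm, hmC, hg, -, -, hdeg⟩ := hC d hd1
  have hmn : m + m ≤ n := by
    have : ((m + m : ℕ) : ℝ) ≤ n := by
      push_cast
      calc (m : ℝ) + m ≤ 2 * (C * (d : ℝ) ^ (1 / α)) := by linarith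
        _ ≤ 2 * (C * r ^ (1 / α)) := by gcongr
        _ = n := by rw [hrk]; field_simp
    exact_mod_cast this
  set G2 : SimpleGraph (Fin (m + m)) :=
    G.comap (finSumFinEquiv.symm : Fin (m + m) ≃ Fin m ⊕ Fin m) with hG2
  have hg2 : P (Fin (m + m)) G2 := hP _ _ G2 G
    (finSumFinEquiv.symm : Fin (m + m) ≃ Fin m ⊕ Fin m) ⟨fun u v h => h, fun _ _ _ _ _ h =>
      (finSumFinEquiv.symm : Fin (m + m) ≃ Fin m ⊕ Fin m).injective h⟩ hg
  have hdeg2 : ∀ x, (G2.neighborSet x).ncard = d := by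
    intro x
    rw [← hdeg (finSumFinEquiv.symm x), ← Set.ncard_image_of_injective _
        (finSumFinEquiv.symm : Fin (m + m) ≃ Fin m ⊕ Fin m).injective]
    congr 1
    ext z
    simp only [hG2, Set.mem_image, SimpleGraph.mem_neighborSet, SimpleGraph.comap_adj]
    constructor
    · rintro ⟨j, hj, rfl⟩
      exact hj
    · intro hz
      refine ⟨finSumFinEquiv z, ?_, by simp⟩
      simpa using hz
  obtain ⟨H, ⟨f, hf⟩, hHe⟩ := copies (m + m) n d (by omega) hmn G2 (by
    intro v
    have e : (G2.neighborSet v).ncard = G2.degree v := by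
      rw [← G2.card_neighborFinset_eq_degree, ← Set.ncard_coe_finset, G2.coe_neighborFinset]
    rw [← e, hdeg2])
  refine ⟨H, hP _ _ H G2 f hf hg2, ?_⟩
  have h1 : (n : ℝ) * d ≤ 4 * (H.edgeSet.ncard : ℝ) := by exact_mod_cast hHe
  have h2 : (n : ℝ) ^ (1 + α) = n * (n : ℝ) ^ α := by
    rw [Real.rpow_add hn0, Real.rpow_one]
  have h3 : r = (n : ℝ) ^ α / (2 * C) ^ α := by
    rw [hr, Real.div_rpow hn0.le (by positivity)]
  have h4 : 1 / (8 * (2 * C) ^ α) * (n : ℝ) ^ (1 + α) = n * (r / 2) / 4 := by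
    rw [h2, h3]
    have : (2 * C) ^ α ≠ 0 := by positivity
    field_simp
    norm_num
  rw [h4]
  nlinarith

theorem denseForm_iff (hP : ImmClosed P) {α : ℝ} (hα : 0 < α) : DenseForm P α ↔ RegForm P α :=
  ⟨regForm_of_denseForm hP hα, denseForm_of_regForm hP hα⟩


end Pool.Agent.Q266.KM
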